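import Pool.Agent.W5h93.TBU.Defs
import Pool.Agent.W5h93.QD.Sys

/-!
# Jannsen's conjecture for systems of quadratic equations: definitions
-/

set_option autoImplicit false

open CategoryTheory AlgebraicGeometry MvPolynomial Pool.Agent.Y116.UV Pool.Agent.W5h93.QD

namespace Pool.Agent.W5h93.TBU

variable {Ω : Type} [Field Ω] {k : Type} [Field k]

/-- For the étale double cover `Spec A[s] / (s² - u) → Spec A`, `u` a unit, the groups of the base are
direct summands of those of the total space, compatibly with the regulators and the Frobenius. (The
composition of the flat pull-back and the proper push-forward is multiplication by two.) -/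
def Data.DoubleCoverSummand (T : Data Ω k) : Prop :=
  ∀ (A : Type) [CommRing A] [Algebra k A] [Algebra.FiniteType k A] (u : A), IsUnit u →
    T.Summand (aff k A) (aff k (Sq A u)) 0

/-- `TB` for the smooth schemes of dimension at most `n` -/
def Data.TBDim (T : Data Ω k) (n : ℕ) : Prop :=
  ∀ X : Sch k, FT True X → Smooth X.hom → topologicalKrullDim X.left ≤ n → T.TB X

/-- `TB` for the subschemes of the affine spaces over `Spec A` given by `r + 1` equations of degree at
most two and any number of equations of degree at most one in the coordinates of the affine space, for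
the algebras `A` of finite type over `k` of dimension at most `s`, where `s + r ≤ n`. -/
def Data.TBQuadrics (T : Data Ω k) (n : ℕ) : Prop :=
  ∀ (A : Type) [CommRing A] [Algebra k A] [Algebra.FiniteType k A] (s r : ℕ),
    ringKrullDim A ≤ s → s + r ≤ n → ∀ (N m : ℕ) (b : Fin m → MvPolynomial (Fin N) A)
    (q : Fin (r + 1) → MvPolynomial (Fin N) A), (∀ j, (b j).totalDegree ≤ 1) →
    (∀ l, (q l).totalDegree ≤ 2) → T.TB (aff k (Sys A (Fin N) (Set.range b ∪ Set.range q)))

/-- `TB` for the closed subschemes of affine spaces over `k` given by `m` equations of degree at most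
two. -/
def Data.TBSystems (T : Data Ω k) (m : ℕ) : Prop :=
  ∀ (N : ℕ) (q : Fin m → MvPolynomial (Fin N) k), (∀ l, (q l).totalDegree ≤ 2) →
    T.TB (aff k (Sys k (Fin N) (Set.range q)))

end Pool.Agent.W5h93.TBU
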