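import Pool.Agent.W5h93.TBU.Defs
import Pool.Agent.W495.FM.Hom
import Pool.Agent.Z125.UN.MotUni
import Pool.Agent.Z125.UN.Sym
import Pool.Agent.Z125.UN.Dim2
import Pool.Agent.Q282.UZ.Sys
import Pool.Agent.Q282.UZ.Short

/-!
# Universality for the conjecture of Jannsen
-/

set_option autoImplicit false

open CategoryTheory AlgebraicGeometry Pool.Agent.Y116.UV Pool.Agent.Z125.UN

namespace Pool.Agent.W5h93.TBU

variable {Ω : Type} [Field Ω] [CharZero Ω] {k : Type} [Field k] {T : Data Ω k}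

omit [CharZero Ω] in
/-- `TB` only depends on the member of the family. -/
lemma tb_on {I : Type} (Y : I → Sch k) (l : I) : W495.FM.TB (T.on Y) l ↔ T.TB (Y l) := Iff.rfl

lemma tb_summand (hT : T.IsTheory) {X Y : Sch k} {r : ℤ} (h : T.Summand X Y r) (hY : T.TB Y) :
    T.TB X := by
  have h1 := W495.FM.tb_summand (hT.homology _) h (fun _ => hY)
  exact h1

lemma tb_total (hT : T.IsTheory) {Z X U : Sch k} (i : Z ⟶ X) (j : U ⟶ X) (hX : FT True X)
    (h : IsTriple i j) (hZ : T.TB Z) (hU : T.TB U) : T.TB X := by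
  have h0 : W495.FM.TB (T.on ![Z, X, U]) 0 := hZ
  have h2 : W495.FM.TB (T.on ![Z, X, U]) 2 := hU
  have h1 := W495.FM.tb_total (hT.homology _) (hT.localization i j hX h) h0 h2
  exact h1

lemma tb_opened (hT : T.IsTheory) {Z X U : Sch k} (i : Z ⟶ X) (j : U ⟶ X) (hX : FT True X)
    (h : IsTriple i j) (hZ : T.TB Z) (hX' : T.TB X) : T.TB U := by
  have h0 : W495.FM.TB (T.on ![Z, X, U]) 0 := hZ
  have h1 : W495.FM.TB (T.on ![Z, X, U]) 1 := hX'
  have h2 := W495.FM.tb_opened (hT.homology _) (hT.localization i j hX h) h0 h1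
  exact h2

lemma tb_closed (hT : T.IsTheory) {Z X U : Sch k} (i : Z ⟶ X) (j : U ⟶ X) (hX : FT True X)
    (h : IsTriple i j) (hX' : T.TB X) (hU : T.TB U) : T.TB Z := by
  have h1 : W495.FM.TB (T.on ![Z, X, U]) 1 := hX'
  have h2 : W495.FM.TB (T.on ![Z, X, U]) 2 := hU
  have h0 := W495.FM.tb_closed (hT.homology _) (hT.localization i j hX h) h1 h2
  exact h0

theorem clo_tb (hT : T.IsTheory) : Q282.UK.Clo True T.TB where
  iso hX e h := tb_summand hT (hT.iso hX e) h
  total i j hX h hZ hU := tb_total hT i j hX h hZ hU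
  opened i j hX h hZ hX' := tb_opened hT i j hX h hZ hX'
  torus A _ _ _ h := tb_summand hT (hT.torus A) h

lemma tb_space (hT : T.IsInvariant) (n : ℕ) : T.TB (aff k (MvPolynomial (Fin n) k)) := by
  have h2 := hT.bundle k (n + 1) (f1 k n) (aff k k) (𝟙 _) inferInstance (range_id n)
  have h3 : T.TB (aff k (Jou (f1 k n))) := tb_summand hT.toIsTheory h2.2 hT.point
  exact tb_summand hT.toIsTheory (hT.iso (ft_aff True) ⟨(affIso (jouOne k n)).symm⟩) h3

theorem bnd_tb (hT : T.IsInvariant) : Bnd True T.TB where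
  iso hX e h := tb_summand hT.toIsTheory (hT.iso hX e) h
  total i j hX h hZ hU := tb_total hT.toIsTheory i j hX h hZ hU
  opened i j hX h hZ hX' := tb_opened hT.toIsTheory i j hX h hZ hX'
  closed i j hX h hX' hU := tb_closed hT.toIsTheory i j hX h hX' hU
  space := tb_space hT
  jouanolou A _ _ _ m f U j hj hr h := tb_summand hT.toIsTheory (hT.bundle A m f U j hj hr).1 h
  torus A _ _ _ h := tb_summand hT.toIsTheory (hT.torus A) h
  bundle A _ _ _ m f U j hj hr h := tb_summand hT.toIsTheory (hT.bundle A m f U j hj hr).2 h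

/-- `TB` for the schemes of dimension at most `n`. -/
theorem dim_tfae [PerfectField k] (hT : T.IsInvariant) (n : ℕ) :
    List.TFAE [
      ∀ X : Sch k, FT True X → Smooth X.hom → topologicalKrullDim X.left ≤ n → T.TB X,
      ∀ X : Sch k, FT True X → topologicalKrullDim X.left ≤ n → T.TB X,
      ∀ (a b c : ℕ) (S : Fin a → Fin b → Fin c → k), (a ≤ n + 2 ∨ b ≤ n + 2 ∨ c ≤ n + 2) →
        T.TB (hypS S)] := by
  have hB := bnd_tb hT
  tfae_have 1 → 2 := fun h => dim_smooth hB n h
  tfae_have 2 → 3 := by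
    intro h1 a b c S hm
    have h2 : ∀ I : Ideal (MvPolynomial (Fin (n + 1)) k),
        T.TB (aff k (MvPolynomial (Fin (n + 1)) k ⧸ I)) :=
      dim_to_closed hB fun A _ _ _ hA => h1 _ (ft_aff True) (by rw [topDim_aff]; exact hA)
    exact of_block hB (fun a b c' hc' S => to_tri hB h2 a b c' hc' S) S hm
  tfae_have 3 → 1 := by
    intro h X hX _ hn
    exact (dim_tri hB n).mpr (fun a b S => h a b (n + 2) S (Or.inr (Or.inr le_rfl))) X hX hn
  tfae_finish

/-- `TB` for all schemes over the field with `p` elements. -/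
theorem three_tb (p : ℕ) [Fact p.Prime] {T : Data Ω (ZMod p)} (hT : T.IsTheory) :
    (∀ X : Sch (ZMod p), FT True X → T.TB X) ↔ Q282.UZ.ForThreeTerms T.TB :=
  Q282.UZ.three_iff (Q282.UZ.short_presents (ZMod.intCast_surjective)) (clo_tb hT)

end Pool.Agent.W5h93.TBU
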