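import Pool.Agent.W495.FM.HomDefs
import Pool.Agent.Y116.UV.Defs

/-!
# Motivic and `ℓ`-adic homology of the schemes over a finite field: definitions
-/

set_option autoImplicit false

open CategoryTheory AlgebraicGeometry Pool.Agent.Y116.UV

namespace Pool.Agent.W5h93.TBU

/-- Data of motivic and `ℓ`-adic homology of the schemes `X` over the finite field `k`: the motivic
homology `M X i j = H_i^M(X, ℚ(j))`, the `ℓ`-adic homology `E X i j = H_i(X, ℚ_ℓ(j)) ⊗ Ω` over the
algebraic closure, for a field `Ω` which contains `ℚ_ℓ`, the operation `frob` of the Frobenius on it,
and the regulator `reg`. (For the schemes which are not separated and of finite type over `k` all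
groups may be zero.) -/
structure Data (Ω : Type) [Field Ω] (k : Type) [Field k] where
  M : Sch k → ℤ → ℤ → Type
  [mgrp : ∀ X i j, AddCommGroup (M X i j)]
  [mmod : ∀ X i j, Module ℚ (M X i j)]
  E : Sch k → ℤ → ℤ → Type
  [egrp : ∀ X i j, AddCommGroup (E X i j)]
  [emod : ∀ X i j, Module Ω (E X i j)]
  frob : ∀ X i j, E X i j → E X i j
  reg : ∀ X i j, M X i j → E X i j

attribute [instance] Data.mgrp Data.mmod Data.egrp Data.emod

variable {Ω : Type} [Field Ω] {k : Type} [Field k]

/-- The data for the members of a family of schemes. -/
def Data.on (T : Data Ω k) {I : Type} (Y : I → Sch k) : W495.FM.Homology Ω I where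
  M l := T.M (Y l)
  E l := T.E (Y l)
  frob l := T.frob (Y l)
  reg l := T.reg (Y l)

/-- Jannsen's conjecture `TB(X)`: in all degrees and for all twists the regulator is, after extension of
scalars, an isomorphism of the motivic homology with the space of the Frobenius invariant elements, and
the eigenvalue one of the Frobenius is semisimple. -/
def Data.TB (T : Data Ω k) (X : Sch k) : Prop := W495.FM.TB (T.on fun _ : Unit => X) ()

/-- For all `i`, `j` the groups of `X` in the degree `i` and with the twist `j` are direct summands of
those of `Y` in the degree `i + 2 r` and with the twist `j + r`, compatibly with the regulators and the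
Frobenius. -/
def Data.Summand (T : Data Ω k) (X Y : Sch k) (r : ℤ) : Prop :=
  W495.FM.IsSummandOf (T.on fun b : Bool => if b then Y else X) false (fun _ : Unit => true)
    fun _ => r

/-- The properties of motivic and `ℓ`-adic homology over the finite field `k` which are used.

* `homology`: the `ℓ`-adic homology groups are finite-dimensional, the Frobenius is linear, the
  regulator is additive and its values are invariant under the Frobenius;
* `iso`: isomorphic schemes have isomorphic groups;
* `localization`: the long exact localization sequences, compatible with the regulators and the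
  Frobenius, for a closed subscheme `Z` of a separated scheme `X` of finite type and its complement
  `U` (Bloch, Levine);
* `torus`: for affine `X` of finite type the groups of `X` are direct summands of the ones of
  `X × 𝔾_m` (the flat pull-back has the left inverse given by the restriction to `X × 1`). -/
structure Data.IsTheory (T : Data Ω k) : Prop where
  homology : ∀ {I : Type} (Y : I → Sch k), W495.FM.IsHomology (T.on Y)
  iso : ∀ {X Y : Sch k}, FT True X → Nonempty (X ≅ Y) → T.Summand Y X 0
  localization : ∀ {Z X U : Sch k} (i : Z ⟶ X) (j : U ⟶ X), FT True X → IsTriple i j →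
    W495.FM.IsTriple (T.on ![Z, X, U]) 0 1 2
  torus : ∀ (A : Type) [CommRing A] [Algebra k A] [Algebra.FiniteType k A],
    T.Summand (aff k A) (aff k (LaurentPolynomial A)) 1

/-- Moreover homotopy invariance and the value at a point.

* `bundle`: for the affine bundle `Spec A[w_1, …, w_m] / (∑ f_l w_l - 1) → U` with fibre `𝔸^(m-1)`,
  where `U` is the complement of `f = 0` in `Spec A`, the groups of the total space and of `U` are
  isomorphic, up to the shift by `2 (m - 1)` and the twist by `m - 1`;
* `point`: `TB` is true for the point `Spec k` (Quillen). -/
structure Data.IsInvariant (T : Data Ω k) : Prop extends T.IsTheory where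
  bundle : ∀ (A : Type) [CommRing A] [Algebra k A] [Algebra.FiniteType k A] (m : ℕ)
    (f : Fin m → A) (U : Sch k) (j : U ⟶ aff k A), IsOpenImmersion j.left →
    Set.range j.left = {x : PrimeSpectrum A | ∃ l, f l ∉ x.asIdeal} →
    T.Summand U (aff k (Jou f)) (m - 1) ∧ T.Summand (aff k (Jou f)) U (1 - m)
  point : T.TB (aff k k)

end Pool.Agent.W5h93.TBU
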